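import Pool.Agent.X39.Near.MasterI
import Pool.Agent.X255.RH.Hyp

/-!
# Logarithms of points of hyperelliptic Jacobians times tori: ALL algebraic points close to any point outside a set of dimension zero

Let `C` be the curve `y² = f(x)`, `f` a squarefree complex polynomial of degree `m ≥ 1`, `J` its Jacobian (of dimension
`γ`, `m = 2 γ + 1` or `2 γ + 2`), and `c_1, …, c_r` distinct complex numbers. On a connected open set `V` on which there is
a branch `S` of `√f`, let `Φ_i` be primitives of `x ^ i / S`, `i < n`, `n ≤ m - 1`, and `l_j` branches of `log (x - c_j)`. The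
point `(Φ_0 (x), …, Φ_(γ-1) (x), l_1 (x), …, l_r (x))` is, up to a constant vector, the logarithm `r` of a point of
`G = J × G_m ^ r` with coordinates in the field of `x, √f(x)`, and the other `Φ_i` are integrals of the second kind (and of
the third kind at the points at infinity, if `m` is even). If `f`, the `c_j` and `x` are algebraic the conjecture predicts
transcendence degree `γ + r` for the components of `r` over the periods of `G` outside of special points. Outside ONE set of
complex numbers `x` of Hausdorff dimension `0`, for all number fields `F ⊂ ℂ`, all `ω > 0`, `d` and `A` there are `B` and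
`T₁` such that for all `T ≥ T₁` and ALL `t ∈ F` of height at most `T` with `|t - x| ≤ T ^ (-ω)` all the numbers `Φ_i (t)`,
`l_j (t)` satisfy no relation of degree at most `d` with coefficients which are polynomials of degree at most `d` in the
`u_k(t) / w(t)` and in given complex numbers `ξ_i` (for instance the periods of `G` and any constants of integration), with
coefficients in `F` of height at most `T ^ A`, not even up to `T ^ (-B)`. In particular this holds at the convergents of
all irrational real numbers in `V` outside this set, from some point on.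
-/

set_option autoImplicit false

open Polynomial MeasureTheory NumberField

namespace Pool.Agent.Results.MP_4aec10_nt.ApproximationsOfAllNumbers

open Pool.Agent.X39.Near (Size Dependent)

/-- On the connected open set `V`, `S` is a branch of `√f`, the `Φ_i` are primitives of `x ^ i / S`, `i < n`, where `n` is
less than the degree of the squarefree polynomial `f`, and the `l_j` are branches of `log (x - c_j)`, where the `c_j` are
distinct. -/
structure Integrals (V : Set ℂ) (f : ℂ[X]) (S : ℂ → ℂ) {n r : ℕ} (Φ : Fin n → ℂ → ℂ) (c : Fin r → ℂ)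
    (l : Fin r → ℂ → ℂ) : Prop where
  isOpen : IsOpen V
  isPreconnected : IsPreconnected V
  nonempty : V.Nonempty
  squarefree : Squarefree f
  degree : n + 1 ≤ f.natDegree
  injective : Function.Injective c
  analytic : AnalyticOnNhd ℂ S V
  sq : ∀ x ∈ V, S x ^ 2 = f.eval x
  primitive : ∀ i, ∀ x ∈ V, HasDerivAt (Φ i) (x ^ (i : ℕ) / S x) x
  nonzero : ∀ x ∈ V, S x ≠ 0
  analytic_l : ∀ j, AnalyticOnNhd ℂ (l j) V
  exp_l : ∀ j, ∀ x ∈ V, Complex.exp (l j x) = x - c j

/-- **Theorem.** Let `Φ_i` and `l_j` be integrals on `y² = f (x)` and logarithms on `V` as above; let `u_k`, `w` be complex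
polynomials, `w` without zeros on `V`, and `ξ_1, …, ξ_g` complex numbers. There is a set `E` of complex numbers of Hausdorff dimension `0` such that: (1) for all `x ∈ V` outside `E`, all
number fields `F` with an embedding `ι` in `ℂ`, all `d`, `A` and `ω > 0` there are `B`, `T₁` such that for all
`T ≥ T₁` and all `t ∈ F`, quotients of integers with conjugates at most `T`, with `|ι t - x| ≤ T ^ (-ω)`, the
values of these functions at `t` are not dependent; (2) for all irrational real `x ∈ V` outside `E` and all `d`,
`A` there is `B` such that the values at the convergents `t` of `x` are not dependent over `ℚ`, at the level of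
the denominator, from some point on. -/
theorem result {n r q g : ℕ} (V : Set ℂ) (f : ℂ[X]) (S : ℂ → ℂ) (Φ : Fin n → ℂ → ℂ) (c : Fin r → ℂ)
    (l : Fin r → ℂ → ℂ) (hI : Integrals V f S Φ c l)
    (u : Fin q → Polynomial ℂ) (w : Polynomial ℂ) (hw : ∀ t ∈ V, w.eval t ≠ 0) (ξ : Fin g → ℂ) :
    ∃ E : Set ℂ, dimH E = 0 ∧
      (∀ x ∈ V, x ∉ E → ∀ (F : Type) [Field F] [NumberField F] (ι : F →+* ℂ)
        (d A : ℕ) (ω : ℝ), 0 < ω → ∃ B T₁ : ℝ, ∀ T : ℝ, T₁ ≤ T → ∀ t : F, Size F T t →
          ‖ι t - x‖ ≤ T ^ (-ω) → ¬ Dependent (Sum.elim Φ l) u w ξ F ι d A B T t) ∧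
      ∀ x : ℝ, Irrational x → (x : ℂ) ∈ V → (x : ℂ) ∉ E → ∀ d A : ℕ, ∃ (B : ℝ) (n₀ : ℕ), ∀ k : ℕ,
        n₀ ≤ k → ¬ Dependent (Sum.elim Φ l) u w ξ ℚ (algebraMap ℚ ℂ) d A B (x.convergent k).den
          (x.convergent k) := by
  have hpre : IsPreconnected V := hI.isPreconnected
  have hop : IsOpen V := hI.isOpen
  have han : ∀ w : Fin n ⊕ Fin r, AnalyticOnNhd ℂ (Sum.elim Φ l w) V := by
    rintro (i | j)
    · have h1 : DifferentiableOn ℂ (Φ i) V := fun x hx =>
        (hI.primitive i x hx).differentiableAt.differentiableWithinAt
      exact h1.analyticOnNhd hop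
    · exact hI.analytic_l j
  have hind : Pool.Agent.X255.RH.Indep V (Sum.elim Φ l) := by
    refine Pool.Agent.X255.RH.hy_indep hpre hop hI.nonempty f hI.squarefree S hI.analytic hI.sq hI.degree c
      hI.injective _ han ?_ ?_
    · intro i x hx
      change deriv (Φ i) x * S x = _
      rw [(hI.primitive i x hx).deriv, div_mul_cancel₀ _ (hI.nonzero x hx)]
    · intro j x hx
      change deriv (l j) x * _ = 1
      have h2 := ((hI.analytic_l j x hx).differentiableAt.hasDerivAt).cexp
      have h3 : HasDerivAt (fun y => Complex.exp (l j y)) 1 x := by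
        have h4 : HasDerivAt (fun y : ℂ => y - c j) 1 x := (hasDerivAt_id x).sub_const _
        refine h4.congr_of_eventuallyEq ?_
        filter_upwards [hop.mem_nhds hx] with y hy
        exact hI.exp_l j y hy
      have h4 := h2.unique h3
      rw [hI.exp_l j x hx] at h4
      rw [mul_comm]
      exact h4
  exact Pool.Agent.X39.Near.master_indep V hop hpre _ han hind u w hw ξ

end Pool.Agent.Results.MP_4aec10_nt.ApproximationsOfAllNumbers
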