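import Pool.Agent.X255.RH.Loc
import Pool.Agent.X255.RH.Hyp

/-!
# Logarithms of points of hyperelliptic Jacobians times tori: almost all algebraic points, jointly for all conjugates

Let `C` be the curve `y² = f(x)`, `f` a squarefree complex polynomial of degree `m ≥ 1`, `J` its Jacobian (of dimension
`γ`, `m = 2 γ + 1` or `2 γ + 2`), and `c_1, …, c_r` distinct complex numbers. On a connected open set `V` on which there is
a branch `S` of `√f`, let `Φ_i` be primitives of `x ^ i / S`, `i < n`, `n ≤ m - 1`, and `l_j` branches of `log (x - c_j)`. The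
point `(Φ_0 (x), …, Φ_(γ-1) (x), l_1 (x), …, l_r (x))` is, up to a constant vector, the logarithm `r` of a point of
`G = J × G_m ^ r` with coordinates in the field of `x, √f(x)`, and the other `Φ_i` are integrals of the second kind (and of
the third kind at the points at infinity, if `m` is even). If `f`, the `c_j` and `x` are algebraic the conjecture predicts
transcendence degree `γ + r` for the components of `r` over the periods of `G` outside of special points, and the same for
the points of `G ^ N` for `N` different `x`.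

We prove for 100% of the integral polynomials of degree `g`, ordered by the maximum `T` of the absolute values of the
coefficients, that all the numbers `Φ_i (x)`, `l_j (x)` at all roots `x` of the polynomial in `V` (at distance at least
`1 / (ω (T) + 1)` from the complement of `V`) satisfy no relation whose degree, and the degree of whose coefficient field,
is at most `ω (T)`, and whose coefficients are of size at most `T ^ ω (T)`, where `ω (T) → ∞`; the coefficients may also
contain arbitrary fixed complex numbers `ξ_b`, for instance the monomials in the periods of `G` and in any constants of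
integration.

Proof: `Pool.Agent.X255.NP` (the norm to `ℚ` of a relation over the field generated by all roots, a nonstandard version of
the Bombieri-Pila method), Ostrowski's theorem for germs (`Pool.Agent.W253.LF`, `Pool.Agent.W924.LF`) and a complex version
of helper659's criterion for integrals on hyperelliptic curves and logarithms (`Pool.Agent.X255.HY`,
`Pool.Agent.X255.RH.Hyp`), and `Pool.Agent.X255.RH` (independence of functions of different variables; almost no integral
polynomial has close roots).
-/

set_option autoImplicit false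

open Polynomial Filter NumberField
open scoped Classical

namespace Pool.Agent.Results.MP_4aec10_nt.HyperellipticJacobians

/-- On the connected open set `V`, `S` is a branch of `√f`, the `Φ_i` are primitives of `x ^ i / S`, `i < n`, where `n` is
less than the degree of the squarefree polynomial `f`, and the `l_j` are branches of `log (x - c_j)`, where the `c_j` are
distinct. -/
structure Integrals (V : Set ℂ) (f : ℂ[X]) (S : ℂ → ℂ) {n r : ℕ} (Φ : Fin n → ℂ → ℂ) (c : Fin r → ℂ)
    (l : Fin r → ℂ → ℂ) : Prop where
  isOpen : IsOpen V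
  isPreconnected : IsPreconnected V
  nonempty : V.Nonempty
  squarefree : Squarefree f
  degree : n + 1 ≤ f.natDegree
  injective : Function.Injective c
  analytic : AnalyticOnNhd ℂ S V
  sq : ∀ x ∈ V, S x ^ 2 = f.eval x
  primitive : ∀ i, ∀ x ∈ V, HasDerivAt (Φ i) (x ^ (i : ℕ) / S x) x
  nonzero : ∀ x ∈ V, S x ≠ 0
  analytic_l : ∀ j, AnalyticOnNhd ℂ (l j) V
  exp_l : ∀ j, ∀ x ∈ V, Complex.exp (l j x) = x - c j

/-- the polynomial `a_g X ^ g + … + a_0` -/
noncomputable def poly {g : ℕ} (a : Fin (g + 1) → ℤ) : ℂ[X] := ∑ i, C (a i : ℂ) * X ^ (i : ℕ)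

/-- the roots of the polynomial in the set `V` -/
noncomputable def rootsIn (V : Set ℂ) {g : ℕ} (a : Fin (g + 1) → ℤ) : Finset ℂ :=
  (poly a).roots.toFinset.filter fun z => z ∈ V

/-- The numbers `x q`, `q ∈ Q`, satisfy no relation of degree at most `k` in each of them with coefficients
`∑ ξ b * c b`, `b < k`, where the `c b` are integers of a number field of degree at most `k`, all of whose conjugates
are of absolute value at most `T ^ k`, except the relations all of whose coefficients vanish. -/
def Unrelated {Q : Type} [Fintype Q] [DecidableEq Q] (ξ : ℕ → ℂ) (k : ℕ) (T : ℝ) (x : Q → ℂ) : Prop :=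
  ∀ (F : Type) [Field F] [NumberField F], Module.finrank ℚ F ≤ k → ∀ (io : F →+* ℂ)
    (c : (Q → Fin (k + 1)) → Fin k → 𝓞 F), (∀ l b (φ : F →+* ℂ), ‖φ (c l b : F)‖ ≤ T ^ k) →
    ∑ l, (∑ b : Fin k, ξ b * io (c l b : F)) * ∏ q, x q ^ (l q : ℕ) = 0 → ∀ l, ∑ b : Fin k, ξ b * io (c l b : F) = 0

/-- the `a` with `|a_i| ≤ T` -/
noncomputable def box (g T : ℕ) : Finset (Fin (g + 1) → ℤ) := Fintype.piFinset fun _ => Finset.Icc (-(T : ℤ)) T

/-- the points whose distance to the complement of `V` is at least `1 / (k + 1)` -/
def region (V : Set ℂ) (k : ℕ) : Set ℂ := {z | Metric.ball z (1 / ((k : ℝ) + 1)) ⊆ V}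

/-- the numbers `Φ_i (x)` and `l_j (x)`, `x` all roots of `a` in the set `V`, are unrelated up to complexity `k` -/
def Free {g n r : ℕ} (V : Set ℂ) (Φ : Fin n → ℂ → ℂ) (l : Fin r → ℂ → ℂ) (ξ : ℕ → ℂ) (k : ℕ) (T : ℝ)
    (a : Fin (g + 1) → ℤ) : Prop :=
  Unrelated ξ k T fun q : {z // z ∈ rootsIn V a} × (Fin n ⊕ Fin r) => Sum.elim Φ l q.2 q.1

/-- `a` is of degree `g`, with simple roots, and `Free` for the roots in `region V k` -/
def Good {g n r : ℕ} (V : Set ℂ) (Φ : Fin n → ℂ → ℂ) (l : Fin r → ℂ → ℂ) (ξ : ℕ → ℂ) (k : ℕ) (T : ℝ) (a : Fin (g + 1) → ℤ) : Prop :=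
  a (Fin.last g) ≠ 0 ∧ (poly a).Separable ∧ Free (region V k) Φ l ξ k T a

/-- `a` is of degree `g`, its roots are simple, of absolute value at most `R`, at distance at least `η` from each other,
and the roots in `V` are at distance at least `η` from the complement of `V` -/
def Position (V : Set ℂ) (R η : ℝ) {g : ℕ} (a : Fin (g + 1) → ℤ) : Prop :=
  a (Fin.last g) ≠ 0 ∧ (poly a).Separable ∧ ∀ z, (poly a).eval z = 0 → ‖z‖ ≤ R ∧
    (∀ w, (poly a).eval w = 0 → w ≠ z → η ≤ ‖z - w‖) ∧ (z ∈ V → Metric.ball z η ⊆ V)


/-- **Theorem.** Let `g ≥ 1`, `Φ_i` and `l_j` integrals on `y² = f (x)` and logarithms on `V` as above, and let `ξ` be a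
sequence of complex numbers.
(1) There is a monotone `ω`, `ω(T) → ∞`, such that the proportion of the polynomials with `|a_i| ≤ T` which are not
`Good` with `k = ω(T)` is at most `1 / ω(T)`.
(2) For fixed `k`, `R`, `η > 0` and `ε > 0`, all but `C T ^ (g + ε)` of the polynomials with `|a_i| ≤ T` whose roots
are in the compact position `Position V R η` are `Free` for the roots in `V` (there are about `(2 T) ^ (g + 1)`
polynomials). -/
theorem result (g n r : ℕ) (hg : 0 < g) (V : Set ℂ) (f : ℂ[X]) (S : ℂ → ℂ) (Φ : Fin n → ℂ → ℂ) (c : Fin r → ℂ)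
    (l : Fin r → ℂ → ℂ) (hI : Integrals V f S Φ c l) (ξ : ℕ → ℂ) :
    (∃ ω : ℕ → ℕ, Tendsto ω atTop atTop ∧ Monotone ω ∧ ∀ T,
      ω T * ((box g T).filter fun a => ¬ Good V Φ l ξ (ω T) T a).card ≤ (box g T).card) ∧
    ∀ (k : ℕ) (R η ε : ℝ), 0 < η → 0 < ε → ∃ C : ℝ, ∀ T : ℕ, 1 ≤ T →
      (((box g T).filter fun a => Position V R η a ∧ ¬ Free V Φ l ξ k T a).card : ℝ) ≤
        C * (T : ℝ) ^ ((g : ℝ) + ε) := by
  have hpre : IsPreconnected V := hI.isPreconnected
  have hop : IsOpen V := hI.isOpen
  have han : ∀ w : Fin n ⊕ Fin r, AnalyticOnNhd ℂ (fun x => Sum.elim Φ l w x) V := by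
    rintro (i | j)
    · have h1 : DifferentiableOn ℂ (Φ i) V := fun x hx =>
        (hI.primitive i x hx).differentiableAt.differentiableWithinAt
      exact h1.analyticOnNhd hop
    · exact hI.analytic_l j
  have hind : Pool.Agent.X255.RH.Indep V (fun (w : Fin n ⊕ Fin r) x => Sum.elim Φ l w x) := by
    refine Pool.Agent.X255.RH.hy_indep hpre hop hI.nonempty f hI.squarefree S hI.analytic hI.sq hI.degree c
      hI.injective _ han ?_ ?_
    · intro i x hx
      change deriv (Φ i) x * S x = _
      rw [(hI.primitive i x hx).deriv, div_mul_cancel₀ _ (hI.nonzero x hx)]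
    · intro j x hx
      change deriv (l j) x * _ = 1
      have h2 := ((hI.analytic_l j x hx).differentiableAt.hasDerivAt).cexp
      have h3 : HasDerivAt (fun y => Complex.exp (l j y)) 1 x := by
        have h4 : HasDerivAt (fun y : ℂ => y - c j) 1 x := (hasDerivAt_id x).sub_const _
        refine h4.congr_of_eventuallyEq ?_
        filter_upwards [hop.mem_nhds hx] with y hy
        exact hI.exp_l j y hy
      have h4 := h2.unique h3
      rw [hI.exp_l j x hx] at h4
      rw [mul_comm]
      exact h4
  have h1 := Pool.Agent.X255.RH.main_all (g := g) hg hpre hop (region V) (Pool.Agent.X255.RH.tame_deep V) han hind ξ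
  refine ⟨h1, fun k R η ε hη hε => ?_⟩
  have h2 := Pool.Agent.X255.RH.main_eps (g := g) hg hpre hop han hind V ξ k R η ε hη hε
  exact h2

end Pool.Agent.Results.MP_4aec10_nt.HyperellipticJacobians
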