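import Pool.Agent.Results.MP_4aec10_nt.SemiabelianTranslates
import Pool.Agent.X174.WinInt

/-!
# Semiabelian translates by logarithms of ALL points with integral coordinates in cubes around thin sequences

Let `Λ` be a lattice with rational invariants, `E` the elliptic curve. For all `n ≥ 1`, `q`, `δ`, `d` there is `c > 0` such
that for every sequence `v ≥ 1` of exponent of convergence at most `τ` (for `v_i = i ^ a` this is `1 / a`, for
`v_i = b ^ i` it is `0`) and `ρ < 1` and all sequences `w_k ∈ ℂ^q` and `(z_k, s_k) ∈ ℂ^n × ℂ^n` there is ONE set `E ⊂ ℝ^n`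
of Hausdorff dimension at most `(n - c + τ) / (1 - ρ)` such that for each `α` outside `E` and each `k`, for all but finitely
many `i` and ALL integers `a_1, …, a_n` in the cube `|a_j - α_j v_i| ≤ v_i ^ ρ`: for all translates `(u, t)` of `(z_k, s_k)`
by logarithms of the point `((a_i, ±β_i), a_i)` of `(E × G_m)^n`, the polynomial relations of degree at most `δ` over number
fields of degree at most `d` between `w_k`, the components `u_i`, `ζ(u_i)`, `t_i` and the components of `exp_G(u, t)` are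
identities in the `u_i`, `ζ(u_i)`, `t_i`.

The number of exceptions is from the starting result `SemiabelianTranslates`.
-/

set_option autoImplicit false

namespace Pool.Agent.Results.MP_4aec10_nt.TranslatesInCubes

open SemiabelianTranslates (zeta components image FreeOverImage IsTranslate)

/-- the exponent of convergence of the sequence `v` is at most `τ` -/
def ExpLe (v : ℕ → ℝ) (τ : ℝ) : Prop := ∀ t : ℝ, τ < t → Summable (fun n : ℕ => (v n) ^ (-t))

/-- **Theorem.** Let `Λ` be a lattice with rational invariants, `n ≥ 1`. For all `q`, `δ`, `d` there is `0 < c < 1` such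
that for every sequence `v ≥ 1` of exponent of convergence at most `τ ≥ 0`, every `ρ < 1` and all sequences `w_k ∈ ℂ^q`,
`z_k ∈ ℂ^n`, `s_k ∈ ℂ^n` there is a set `E ⊂ ℝ^n` of Hausdorff dimension at most `(n - c + τ) / (1 - ρ)` such that for each
`α` outside `E` and each `k`, for all but finitely many `i` and ALL integers `a_j` with `|a_j - α_j v_i| ≤ v_i ^ ρ`,
`j ≤ n`: all translates of `(z_k, s_k)` by logarithms of the point `((a_i, ±β_i), a_i)` are free over their image and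
`w_k`. The sequences `v_i = (i + 1) ^ a` and `v_i = b ^ i` have exponent of convergence at most `1 / a` and `0`. -/
theorem result :
    (∀ (Λ : PeriodPair) (a b : ℚ), Λ.g₂ = a → Λ.g₃ = b → ∀ n q δ d : ℕ, 1 ≤ n →
      ∃ c : ℝ, 0 < c ∧ c < 1 ∧
      ∀ (v : ℕ → ℝ) (τ ρ : ℝ), (∀ i, 1 ≤ v i) → 0 ≤ τ → ExpLe v τ → ρ < 1 →
      ∀ (w : ℕ → Fin q → ℂ) (z s : ℕ → Fin n → ℂ),
      ∃ E : Set (Fin n → ℝ), dimH E ≤ ENNReal.ofReal (((n : ℝ) - c + τ) / (1 - ρ)) ∧
        ∀ α : Fin n → ℝ, α ∉ E → ∀ k : ℕ, ∃ i₀ : ℕ, ∀ i : ℕ, i₀ ≤ i →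
          ∀ x : Fin n → ℤ, (∀ j, |(x j : ℝ) - α j * v i| ≤ (v i) ^ ρ) →
            ∀ u t : Fin n → ℂ, IsTranslate Λ (z k) (s k) (fun j => (x j : ℂ)) u t →
              FreeOverImage Λ δ d (w k) u t) ∧
    (∀ a : ℝ, 0 < a → ExpLe (fun n : ℕ => ((n : ℝ) + 1) ^ a) (1 / a)) ∧
    (∀ b : ℝ, 1 < b → ExpLe (fun n : ℕ => b ^ n) 0) := by
  refine ⟨fun Λ a b ha hb n q δ d hn => ?_, fun κ hκ => Pool.Agent.Y854.GM.expLe_pow κ hκ,
    fun b hb => Pool.Agent.Y854.GM.expLe_geom b hb⟩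
  obtain ⟨c1, hc1, C, h⟩ := SemiabelianTranslates.result Λ a b ha hb n q 1 le_rfl δ d
  set c : ℝ := min c1 (1 / 2) with hc
  have hc0 : 0 < c := lt_min hc1 (by norm_num)
  have hca : c ≤ c1 := min_le_left _ _
  have hcb : c ≤ 1 / 2 := min_le_right _ _
  have hns1 : (1 : ℝ) ≤ (n : ℝ) := by exact_mod_cast hn
  refine ⟨c, hc0, by linarith, fun v τ ρ hv hτ hE hρ w z s => ?_⟩
  have key : ∀ k : ℕ, ∃ E : Set (Fin n → ℝ), dimH E ≤ ENNReal.ofReal (((n : ℝ) - c + τ) / (1 - ρ)) ∧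
      ∀ α : Fin n → ℝ, α ∉ E → ∃ i₀ : ℕ, ∀ i : ℕ, i₀ ≤ i →
          ∀ x : Fin n → ℤ, (∀ j, |(x j : ℝ) - α j * v i| ≤ (v i) ^ ρ) →
            ¬ ¬ ∀ u t : Fin n → ℂ, IsTranslate Λ (z k) (s k) (fun j => (x j : ℂ)) u t →
              FreeOverImage Λ δ d (w k) u t := by
    intro k
    obtain ⟨C', hC'⟩ := Pool.Agent.X174.intTuples (κ := Fin n)
      (fun α => ¬ ∀ u t : Fin n → ℂ, IsTranslate Λ (z k) (s k) α u t → FreeOverImage Λ δ d (w k) u t)
      (c := c1) (C := C) (fun T hT => by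
        obtain ⟨h1, h2⟩ := h (w k) (z k) (s k) T hT
        rw [Fintype.card_fin]
        exact ⟨h1, h2⟩)
    refine Pool.Agent.X174.winTupZ (fun x : Fin n → ℤ => ¬ ∀ u t : Fin n → ℂ,
      IsTranslate Λ (z k) (s k) (fun j => (x j : ℂ)) u t → FreeOverImage Λ δ d (w k) u t) hv hτ hE
      (by linarith) hρ ⟨|C'|, fun T hT => ?_⟩
    have hT1 : (1 : ℝ) ≤ T := by exact_mod_cast hT
    refine (hC' T hT).trans ?_
    rw [Fintype.card_fin]
    calc C' * (T : ℝ) ^ ((n : ℝ) - c1) ≤ |C'| * (T : ℝ) ^ ((n : ℝ) - c1) :=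
          mul_le_mul_of_nonneg_right (le_abs_self C') (by positivity)
      _ ≤ |C'| * (T : ℝ) ^ ((n : ℝ) - c) := by
          apply mul_le_mul_of_nonneg_left _ (abs_nonneg C')
          apply Real.rpow_le_rpow_of_exponent_le hT1
          linarith
  choose Es hEs1 hEs2 using key
  refine ⟨⋃ k, Es k, ?_, fun α hα k => ?_⟩
  · rw [dimH_iUnion]
    exact iSup_le hEs1
  · obtain ⟨i₀, hi⟩ := hEs2 k α (fun hm => hα (Set.mem_iUnion.2 ⟨_, hm⟩))
    exact ⟨i₀, fun i hi1 x hx => not_not.1 (hi i hi1 x hx)⟩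

end Pool.Agent.Results.MP_4aec10_nt.TranslatesInCubes
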